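import Mathlib

namespace Pool.Agent.Results.MP_af7f8e_al.CharNeTwo

open Coalgebra HopfAlgebra TensorProduct

section Sqrt

theorem eq_of_sq_eq {k R : Type*} [Field k] [Ring R] [Algebra k R] (h2 : (2 : k) ≠ 0)
    {a b : R} (ha : IsNilpotent (a - 1)) (hb : IsNilpotent (b - 1)) (hab : a * a = b * b) :
    a = b := by
  have h1 : IsNilpotent (LinearMap.mulLeft k (a - 1) + LinearMap.mulRight k (b - 1) :
      Module.End k R) :=
    Commute.isNilpotent_add (LinearMap.commute_mulLeft_right _ _)
      ((LinearMap.isNilpotent_mulLeft_iff k _).2 ha)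
      ((LinearMap.isNilpotent_mulRight_iff k _).2 hb)
  have hu : IsUnit (algebraMap k (Module.End k R) 2) := (IsUnit.mk0 _ h2).map _
  have hu2 := h1.isUnit_add_left_of_commute hu (Algebra.commutes _ _).symm
  have hinj := ((Module.End.isUnit_iff _).1 hu2).1
  have h0 : (algebraMap k (Module.End k R) 2 +
      (LinearMap.mulLeft k (a - 1) + LinearMap.mulRight k (b - 1))) (a - b) = 0 := by
    simp only [LinearMap.add_apply, Module.algebraMap_end_apply, LinearMap.mulLeft_apply,
      LinearMap.mulRight_apply, two_smul]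
    have : a - b + (a - b) + ((a - 1) * (a - b) + (a - b) * (b - 1)) = a * a - b * b := by
      noncomm_ring
    rw [this, hab, sub_self]
  have h3 : a - b = 0 := hinj (by rw [h0, map_zero])
  exact sub_eq_zero.1 h3

end Sqrt

variable {k H : Type*} [Field k] [Ring H] [HopfAlgebra k H]

variable (k H) in
/-- The augmentation ideal, as a subspace. -/
noncomputable def aug : Submodule k H := LinearMap.ker (counit : H →ₗ[k] k)

theorem mem_aug {x : H} : x ∈ aug k H ↔ counit (R := k) x = 0 := Iff.rfl

variable (k H) in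
/-- Powers of the augmentation ideal. -/
noncomputable def fil : ℕ → Submodule k H
  | 0 => ⊤
  | n + 1 => fil n * aug k H

theorem fil_succ (n : ℕ) : fil k H (n + 1) = fil k H n * aug k H := rfl

theorem mul_mem_fil_succ {n : ℕ} {x y : H} (hx : x ∈ fil k H n) (hy : counit (R := k) y = 0) :
    x * y ∈ fil k H (n + 1) := Submodule.mul_mem_mul hx hy

theorem mem_fil_one {y : H} (hy : counit (R := k) y = 0) : y ∈ fil k H 1 := by
  simpa using mul_mem_fil_succ (n := 0) (x := 1) Submodule.mem_top hy

theorem fil_mul_mem {n : ℕ} {x : H} (hx : x ∈ fil k H n) (y : H) : x * y ∈ fil k H n := by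
  cases n with
  | zero => exact Submodule.mem_top
  | succ n =>
    rw [fil_succ] at hx
    refine Submodule.mul_induction_on hx ?_ ?_
    · intro m hm j hj
      rw [mul_assoc]
      refine mul_mem_fil_succ hm ?_
      rw [Bialgebra.counit_mul, mem_aug.1 hj, zero_mul]
    · intro u v hu hv
      rw [add_mul]
      exact add_mem hu hv

theorem aug_mul_mem {n : ℕ} {x : H} (hx : x ∈ fil k H n) {y : H} (hy : counit (R := k) y = 0) :
    y * x ∈ fil k H (n + 1) := by
  induction n generalizing x with
  | zero =>
    refine mem_fil_one ?_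
    rw [Bialgebra.counit_mul, hy, zero_mul]
  | succ n ih =>
    rw [fil_succ] at hx
    refine Submodule.mul_induction_on hx ?_ ?_
    · intro m hm j hj
      rw [← mul_assoc]
      exact mul_mem_fil_succ (ih hm) hj
    · intro u v hu hv
      rw [mul_add]
      exact add_mem hu hv

theorem counit_of_mem_fil {n : ℕ} {x : H} (hx : x ∈ fil k H (n + 1)) :
    counit (R := k) x = 0 := by
  rw [fil_succ] at hx
  refine Submodule.mul_induction_on hx ?_ ?_
  · intro m _ j hj
    rw [Bialgebra.counit_mul, mem_aug.1 hj, mul_zero]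
  · intro u v hu hv
    rw [map_add, hu, hv, add_zero]

theorem mul_aug_sq {n : ℕ} {x z : H} (hx : x ∈ fil k H n) (hz : z ∈ aug k H * aug k H) :
    x * z ∈ fil k H (n + 2) := by
  refine Submodule.mul_induction_on hz ?_ ?_
  · intro u hu v hv
    rw [← mul_assoc]
    exact mul_mem_fil_succ (mul_mem_fil_succ hx hu) hv
  · intro u v hu hv
    rw [mul_add]
    exact add_mem hu hv

theorem exists_fil_eq_bot [FiniteDimensional k H] (hloc : ∃! m : Ideal H, m.IsMaximal) :
    ∃ N, fil k H N = ⊥ := by
  haveI : IsArtinianRing H := IsArtinianRing.of_finite k H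
  obtain ⟨m, hm, hu⟩ := hloc
  have hker : (RingHom.ker (Bialgebra.counitAlgHom k H)).IsMaximal :=
    RingHom.ker_isMaximal_of_surjective _ (fun c => ⟨algebraMap k H c, by simp⟩)
  have hj : ∀ x : H, counit (R := k) x = 0 → x ∈ Ring.jacobson H := by
    intro x hx
    rw [Ring.jacobson_eq_sInf_isMaximal, Submodule.mem_sInf]
    intro I hI
    rw [hu I hI, ← hu _ hker]
    exact hx
  obtain ⟨N, hN⟩ := IsSemiprimaryRing.isNilpotent (R := H)
  have key : ∀ n, ∀ x ∈ fil k H n, x ∈ (Ring.jacobson H) ^ n := by
    intro n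
    induction n with
    | zero => intro x _; simp [Submodule.pow_zero, Ideal.one_eq_top]
    | succ n ih =>
      intro x hx
      rw [fil_succ] at hx
      refine Submodule.mul_induction_on hx ?_ ?_
      · intro u hu' v hv
        rw [Submodule.pow_succ]
        exact Ideal.mul_mem_mul (ih u hu') (hj v hv)
      · intro u v hu' hv
        exact add_mem hu' hv
  refine ⟨N, eq_bot_iff.2 fun x hx => ?_⟩
  have := key N x hx
  rw [hN] at this
  simpa using this

theorem nilp_of_fil {N : ℕ} (hN : fil k H N = ⊥) (f : Module.End k H)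
    (hf : ∀ n, ∀ x ∈ fil k H n, f x ∈ fil k H (n + 1)) : IsNilpotent f := by
  have key : ∀ n, ∀ x : H, (f ^ n) x ∈ fil k H n := by
    intro n
    induction n with
    | zero => intro x; exact Submodule.mem_top
    | succ n ih =>
      intro x
      rw [pow_succ', Module.End.mul_apply]
      exact hf n _ (ih x)
  refine ⟨N, LinearMap.ext fun x => ?_⟩
  have := key N x
  rw [hN] at this
  simpa using this

theorem isUnit_of_counit {N : ℕ} (hN : fil k H N = ⊥) {x : H} (hx : counit (R := k) x = 1) :
    IsUnit x := by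
  have key : ∀ n, (x - 1) ^ n ∈ fil k H n := by
    intro n
    induction n with
    | zero => exact Submodule.mem_top
    | succ n ih =>
      rw [pow_succ]
      exact mul_mem_fil_succ ih (by simp [hx])
  have hn : IsNilpotent (x - 1) := ⟨N, by have := key N; rw [hN] at this; simpa using this⟩
  simpa using hn.isUnit_add_one

theorem exists_integral {N : ℕ} (hN : fil k H N = ⊥) :
    ∃ L : H, L ≠ 0 ∧ (∀ a : H, a * L = counit (R := k) a • L) ∧
      (∀ a : H, L * a = counit (R := k) a • L) := by
  classical
  have hex : ∃ N, fil k H N = ⊥ := ⟨N, hN⟩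
  have h0 : Nat.find hex ≠ 0 := by
    intro h
    have h1 := Nat.find_spec hex
    rw [h] at h1
    have h2 : (1 : H) ∈ fil k H 0 := Submodule.mem_top
    rw [h1, Submodule.mem_bot] at h2
    have h3 : counit (R := k) (1 : H) = 1 := by simp
    rw [h2, map_zero] at h3
    exact zero_ne_one h3
  obtain ⟨n, hn⟩ := Nat.exists_eq_succ_of_ne_zero h0
  have h1 : fil k H (n + 1) = ⊥ := by have := Nat.find_spec hex; rwa [hn] at this
  have h2 : fil k H n ≠ ⊥ := Nat.find_min hex (by omega)
  obtain ⟨L, hL, hL0⟩ := Submodule.exists_mem_ne_zero_of_ne_bot h2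
  refine ⟨L, hL0, fun a => ?_, fun a => ?_⟩
  · have := aug_mul_mem hL (y := a - algebraMap k H (counit a)) (by simp)
    rw [h1, Submodule.mem_bot, sub_mul, sub_eq_zero] at this
    rw [this, Algebra.smul_def]
  · have := mul_mem_fil_succ hL (y := a - algebraMap k H (counit a)) (by simp)
    rw [h1, Submodule.mem_bot, mul_sub, sub_eq_zero] at this
    rw [this, Algebra.smul_def, Algebra.commutes]

theorem exists_sqrt (h2 : (2 : k) ≠ 0) {N : ℕ} (hN : fil k H N = ⊥) {g : H}
    (hg : counit (R := k) g = 1) : ∃ h : H, counit (R := k) h = 1 ∧ h * h = g := by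
  have key : ∀ m, ∃ h : H, counit (R := k) h = 1 ∧ h * h - g ∈ fil k H (m + 1) := by
    intro m
    induction m with
    | zero => exact ⟨1, by simp, mem_fil_one (by simp [hg])⟩
    | succ m ih =>
      obtain ⟨h, h1, he⟩ := ih
      set e := (2 : k)⁻¹ • (h * h - g) with hedef
      have hee : e ∈ fil k H (m + 1) := Submodule.smul_mem _ _ he
      have he0 : counit (R := k) e = 0 := counit_of_mem_fil hee
      have hsum : h * h - g = e + e := by
        rw [← two_smul k e, hedef, smul_smul, mul_inv_cancel₀ h2, one_smul]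
      refine ⟨h - e, by simp [h1, he0], ?_⟩
      have : (h - e) * (h - e) - g = (h * h - g) - (e + e) - (h - 1) * e - e * (h - 1) + e * e := by
        noncomm_ring
      rw [this, hsum, sub_self, zero_sub]
      refine add_mem (sub_mem (neg_mem ?_) ?_) ?_
      · exact aug_mul_mem hee (by simp [h1])
      · exact mul_mem_fil_succ hee (by simp [h1])
      · exact mul_mem_fil_succ hee he0
  obtain ⟨h, h1, he⟩ := key N
  refine ⟨h, h1, ?_⟩
  rw [fil_succ, hN, Submodule.bot_mul, Submodule.mem_bot] at he
  exact sub_eq_zero.1 he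

theorem sum_counit_right {ι : Type*} {a : H} (r : Coalgebra.Repr k a ι) :
    ∑ i ∈ r.index, counit (R := k) (r.right i) • r.left i = a := by
  have := congr(TensorProduct.rid k H $(sum_tmul_counit_eq r))
  rw [map_sum] at this
  simp only [TensorProduct.rid_tmul, one_smul] at this
  exact this

theorem antipode_add_mem {a : H} (ha : counit (R := k) a = 0) :
    antipode k a + a ∈ aug k H * aug k H := by
  let r := ℛ k a
  have h1 := sum_antipode_mul_eq_smul r
  have h2 : ∑ i ∈ r.index, counit (R := k) (r.left i) • r.right i = a := sum_counit_smul r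
  have h3 : ∑ i ∈ r.index, counit (R := k) (r.right i) • r.left i = a := by
    exact sum_counit_right r
  have h4 : ∑ i ∈ r.index, counit (R := k) (r.right i) • antipode k (r.left i) =
      antipode k a := by
    conv_rhs => rw [← h3]
    simp [map_sum]
  have h5 : ∑ i ∈ r.index, (counit (R := k) (r.left i) * counit (R := k) (r.right i)) • (1 : H)
      = 0 := by
    rw [← Finset.sum_smul]
    have := congr(counit (R := k) $h2)
    simp only [map_sum, map_smul, smul_eq_mul] at this
    rw [this, ha, zero_smul]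
  have h6 : ∑ i ∈ r.index, (antipode k (r.left i) - counit (R := k) (r.left i) • (1 : H)) *
      (r.right i - counit (R := k) (r.right i) • (1 : H)) ∈ aug k H * aug k H := by
    refine Submodule.sum_mem _ fun i _ => Submodule.mul_mem_mul ?_ ?_
    · rw [mem_aug]; simp
    · rw [mem_aug]; simp
  have h7 : ∑ i ∈ r.index, (antipode k (r.left i) - counit (R := k) (r.left i) • (1 : H)) *
      (r.right i - counit (R := k) (r.right i) • (1 : H)) = -(antipode k a + a) := by
    have : ∀ i, (antipode k (r.left i) - counit (R := k) (r.left i) • (1 : H)) *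
      (r.right i - counit (R := k) (r.right i) • (1 : H)) =
        antipode k (r.left i) * r.right i - counit (R := k) (r.right i) • antipode k (r.left i)
          - counit (R := k) (r.left i) • r.right i
          + (counit (R := k) (r.left i) * counit (R := k) (r.right i)) • (1 : H) := by
      intro i
      simp only [sub_mul, mul_sub, smul_mul_assoc, mul_smul_comm, one_mul, mul_one, smul_sub,
        smul_smul]
      rw [mul_comm (counit (R := k) (r.right i))]
      abel
    simp only [this, Finset.sum_add_distrib, Finset.sum_sub_distrib, h1, h2, h4, h5, ha,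
      zero_smul]
    abel
  rw [h7] at h6
  exact neg_mem_iff.1 h6

theorem sq_sub_mem (n : ℕ) : ∀ x ∈ fil k H n,
    antipode k (antipode k x) - x ∈ fil k H (n + 1) := by
  induction n with
  | zero => intro x _; exact mem_fil_one (by simp)
  | succ n ih =>
    intro x hx
    rw [fil_succ] at hx
    refine Submodule.mul_induction_on hx ?_ ?_
    · intro u hu v hv
      have hv0 : counit (R := k) v = 0 := hv
      have e1 : antipode k (antipode k (u * v)) - u * v =
          (antipode k (antipode k u) - u) * antipode k (antipode k v) +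
            u * ((antipode k (antipode k v) + antipode k v) - (antipode k v + v)) := by
        rw [antipode_mul_antidistrib, antipode_mul_antidistrib]
        noncomm_ring
      rw [e1]
      refine add_mem (mul_mem_fil_succ (ih u hu) (by simp [hv0])) (mul_aug_sq hu ?_)
      exact sub_mem (antipode_add_mem (by simp [hv0])) (antipode_add_mem hv0)
    · intro u v hu hv
      have : antipode k (antipode k (u + v)) - (u + v) =
          (antipode k (antipode k u) - u) + (antipode k (antipode k v) - v) := by
        simp only [map_add]; abel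
      rw [this]
      exact add_mem hu hv

theorem sum_left (a : H) :
    ∑ i ∈ (ℛ k a).index, (antipode k ((ℛ k a).left i) ⊗ₜ[k] (1 : H)) * comul ((ℛ k a).right i)
      = (1 : H) ⊗ₜ[k] a := by
  let F : H ⊗[k] (H ⊗[k] H) →ₗ[k] H ⊗[k] H :=
    ((LinearMap.mul' k H ∘ₗ (antipode k).rTensor H).rTensor H) ∘ₗ
      (TensorProduct.assoc k H H H).symm.toLinearMap
  have hF : ∀ (x : H) (t : H ⊗[k] H), F (x ⊗ₜ t) = (antipode k x ⊗ₜ[k] (1 : H)) * t := by
    intro x t
    induction t using TensorProduct.induction_on with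
    | zero => simp
    | tmul y z => simp [F]
    | add s t hs ht => rw [tmul_add, map_add, hs, ht, mul_add]
  have h1 : F (comul.lTensor H (comul a)) = ∑ i ∈ (ℛ k a).index,
      (antipode k ((ℛ k a).left i) ⊗ₜ[k] (1 : H)) * comul ((ℛ k a).right i) := by
    rw [← (ℛ k a).eq]
    simp only [map_sum, LinearMap.lTensor_tmul, hF]
  rw [← h1]
  have h2 : F (comul.lTensor H (comul a)) =
      (LinearMap.mul' k H ∘ₗ (antipode k).rTensor H ∘ₗ comul).rTensor H (comul a) := by
    simp only [F, LinearMap.comp_apply, LinearEquiv.coe_coe, coassoc_symm_apply,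
      LinearMap.rTensor_comp]
  rw [h2, mul_antipode_rTensor_comul, LinearMap.rTensor_comp, LinearMap.comp_apply,
    rTensor_counit_comul]
  simp

theorem sum_right (a : H) :
    ∑ i ∈ (ℛ k a).index, comul ((ℛ k a).left i) * ((1 : H) ⊗ₜ[k] antipode k ((ℛ k a).right i))
      = a ⊗ₜ[k] (1 : H) := by
  let F : (H ⊗[k] H) ⊗[k] H →ₗ[k] H ⊗[k] H :=
    ((LinearMap.mul' k H ∘ₗ (antipode k).lTensor H).lTensor H) ∘ₗ
      (TensorProduct.assoc k H H H).toLinearMap
  have hF : ∀ (x : H) (t : H ⊗[k] H), F (t ⊗ₜ x) = t * ((1 : H) ⊗ₜ[k] antipode k x) := by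
    intro x t
    induction t using TensorProduct.induction_on with
    | zero => simp
    | tmul y z => simp [F]
    | add s t hs ht => rw [add_tmul, map_add, hs, ht, add_mul]
  have h1 : F (comul.rTensor H (comul a)) = ∑ i ∈ (ℛ k a).index,
      comul ((ℛ k a).left i) * ((1 : H) ⊗ₜ[k] antipode k ((ℛ k a).right i)) := by
    rw [← (ℛ k a).eq]
    simp only [map_sum, LinearMap.rTensor_tmul, hF]
  rw [← h1]
  have h2 : F (comul.rTensor H (comul a)) =
      (LinearMap.mul' k H ∘ₗ (antipode k).lTensor H ∘ₗ comul).lTensor H (comul a) := by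
    simp only [F, LinearMap.comp_apply, LinearEquiv.coe_coe, coassoc_apply,
      LinearMap.lTensor_comp]
  rw [h2, mul_antipode_lTensor_comul, LinearMap.lTensor_comp, LinearMap.comp_apply,
    lTensor_counit_comul]
  simp

theorem left_id {L : H} (hL : ∀ a : H, a * L = counit (R := k) a • L) (a : H) :
    ((1 : H) ⊗ₜ[k] a) * comul L = (antipode k a ⊗ₜ[k] (1 : H)) * comul L := by
  have h3 : ∑ i ∈ (ℛ k a).index, counit (R := k) ((ℛ k a).right i) • (ℛ k a).left i = a := by
    exact sum_counit_right _
  rw [← sum_left, Finset.sum_mul]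
  conv_rhs => rw [← h3]
  simp only [map_sum, map_smul, sum_tmul, Finset.sum_mul]
  refine Finset.sum_congr rfl fun i _ => ?_
  rw [mul_assoc, ← Bialgebra.comul_mul, hL, map_smul, mul_smul_comm, ← smul_tmul',
    smul_mul_assoc]

theorem right_id {L : H} (hL : ∀ a : H, L * a = counit (R := k) a • L) (a : H) :
    comul L * (a ⊗ₜ[k] (1 : H)) = comul L * ((1 : H) ⊗ₜ[k] antipode k a) := by
  have h3 : ∑ i ∈ (ℛ k a).index, counit (R := k) ((ℛ k a).left i) • (ℛ k a).right i = a :=
    sum_counit_smul _
  rw [← sum_right, Finset.mul_sum]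
  conv_rhs => rw [← h3]
  simp only [map_sum, map_smul, tmul_sum, Finset.mul_sum]
  refine Finset.sum_congr rfl fun i _ => ?_
  rw [← mul_assoc, ← Bialgebra.comul_mul, hL, map_smul, smul_mul_assoc, tmul_smul,
    mul_smul_comm]

/-- Contract the first leg of a tensor with a linear form. -/
noncomputable def con (t : H ⊗[k] H) : Module.Dual k H →ₗ[k] H where
  toFun f := TensorProduct.lid k H (f.rTensor H t)
  map_add' f g := by simp [LinearMap.rTensor_add]
  map_smul' c f := by simp [LinearMap.rTensor_smul]

theorem con_tmul (x y : H) (f : Module.Dual k H) : con (x ⊗ₜ[k] y) f = f x • y := by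
  simp [con]

theorem con_add (s t : H ⊗[k] H) (f : Module.Dual k H) : con (s + t) f = con s f + con t f := by
  simp [con]

theorem con_zero (f : Module.Dual k H) : con (0 : H ⊗[k] H) f = 0 := by
  simp [con]

theorem con_mul (t : H ⊗[k] H) (f : Module.Dual k H) (a b c d : H) :
    con ((a ⊗ₜ[k] b) * t * (c ⊗ₜ[k] d)) f =
      b * con t (f ∘ₗ LinearMap.mulLeft k a ∘ₗ LinearMap.mulRight k c) * d := by
  induction t using TensorProduct.induction_on with
  | zero => simp [con_zero]
  | tmul x y => simp [con_tmul, mul_assoc]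
  | add s t hs ht => rw [mul_add, add_mul, con_add, hs, ht, con_add, mul_add, add_mul]

theorem counit_con (L : H) (f : Module.Dual k H) : counit (R := k) (con (comul L) f) = f L := by
  have h3 : ∑ i ∈ (ℛ k L).index, counit (R := k) ((ℛ k L).right i) • (ℛ k L).left i = L := by
    exact sum_counit_right _
  conv_rhs => rw [← h3]
  rw [← (ℛ k L).eq]
  simp [con, map_sum, mul_comm]

theorem result {k H : Type*} [Field k] [Ring H] [HopfAlgebra k H] [FiniteDimensional k H]
    (h2 : ringChar k ≠ 2) (hloc : ∃! m : Ideal H, m.IsMaximal) :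
    ∃ τ : H →ₗ[k] k, (∀ a b : H, τ (a * b) = τ (b * a)) ∧
      ∀ I : Ideal H, (∀ x ∈ I, τ x = 0) → I = ⊥ := by
  have h2' : (2 : k) ≠ 0 := Ring.two_ne_zero h2
  obtain ⟨N, hN⟩ := exists_fil_eq_bot (k := k) hloc
  obtain ⟨L, hL0, hLl, hLr⟩ := exists_integral hN
  set Φ : Module.Dual k H →ₗ[k] H := con (comul L) with hΦ
  have hone : (1 : H) ⊗ₜ[k] (1 : H) = 1 := rfl
  have P1 : ∀ (f : Module.Dual k H) (a : H),
      Φ (f ∘ₗ LinearMap.mulLeft k (antipode k a)) = a * Φ f := by
    intro f a
    have e1 := con_mul (comul L) f 1 a 1 1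
    have e2 := con_mul (comul L) f (antipode k a) 1 1 1
    rw [left_id hLl, e2] at e1
    simpa using e1
  have P2 : ∀ (f : Module.Dual k H) (a : H),
      Φ (f ∘ₗ LinearMap.mulRight k a) = Φ f * antipode k a := by
    intro f a
    have e1 := con_mul (comul L) f 1 1 a 1
    have e2 := con_mul (comul L) f 1 1 1 (antipode k a)
    rw [hone, one_mul] at e1 e2
    rw [right_id hLr, e2] at e1
    simpa using e1.symm
  obtain ⟨f0, hf0⟩ : ∃ f : Module.Dual k H, f L = 1 := by
    obtain ⟨f, hf⟩ : ∃ f : Module.Dual k H, f L ≠ 0 := by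
      by_contra hcon
      push Not at hcon
      exact hL0 ((Module.forall_dual_apply_eq_zero_iff k L).1 hcon)
    exact ⟨(f L)⁻¹ • f, by simp [hf]⟩
  obtain ⟨u, hu⟩ : IsUnit (Φ f0) := isUnit_of_counit hN (by rw [hΦ, counit_con, hf0])
  have hsurj : Function.Surjective Φ := by
    intro y
    refine ⟨f0 ∘ₗ LinearMap.mulLeft k (antipode k (y * ↑u⁻¹)), ?_⟩
    rw [P1, ← hu, mul_assoc, Units.inv_mul, mul_one]
  have hinj : Function.Injective Φ :=
    (LinearMap.injective_iff_surjective_of_finrank_eq_finrank Subspace.dual_finrank_eq).2 hsurj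
  obtain ⟨lam, hlam⟩ := hsurj 1
  have P3 : ∀ a : H, Φ (lam ∘ₗ LinearMap.mulLeft k (antipode k a)) = a := by
    intro a; rw [P1, hlam, mul_one]
  have hSinj : ∀ a : H, antipode k a = 0 → a = 0 := by
    intro a ha
    have := P3 a
    rw [ha] at this
    simpa using this.symm
  have hSsurj : Function.Surjective (antipode k : H →ₗ[k] H) :=
    LinearMap.injective_iff_surjective.1 ((injective_iff_map_eq_zero _).2 hSinj)
  have nondeg : ∀ b : H, (∀ x, lam (b * x) = 0) → b = 0 := by
    intro b hb
    obtain ⟨a, rfl⟩ := hSsurj b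
    have h0 : lam ∘ₗ LinearMap.mulLeft k (antipode k a) = 0 := LinearMap.ext hb
    have := P3 a
    rw [h0, map_zero] at this
    rw [← this, map_zero]
  have nak : ∀ x a : H, lam (x * a) = lam (antipode k (antipode k a) * x) := by
    intro x a
    have h0 : lam ∘ₗ LinearMap.mulRight k a =
        lam ∘ₗ LinearMap.mulLeft k (antipode k (antipode k a)) := by
      apply hinj
      rw [P2, P3, hlam, one_mul]
    exact LinearMap.congr_fun h0 x
  obtain ⟨g, hg⟩ : ∃ g : H, ∀ x, lam (antipode k x) = lam (g * x) := by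
    refine ⟨antipode k (Φ (lam ∘ₗ antipode k)), fun x => ?_⟩
    have h0 := hinj (P3 (Φ (lam ∘ₗ antipode k)))
    exact (LinearMap.congr_fun h0 x).symm
  have hS4 : ∀ b : H, antipode k (antipode k (antipode k (antipode k b))) * g = g * b := by
    intro b
    rw [← sub_eq_zero]
    apply nondeg
    intro x
    rw [sub_mul, map_sub, mul_assoc, ← nak, mul_assoc, ← hg, antipode_mul_antidistrib, ← nak,
      ← antipode_mul_antidistrib, hg, mul_assoc, sub_self]
  have hg0 : counit (R := k) g ≠ 0 := by
    intro h0
    apply hL0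
    apply hSinj; apply hSinj; apply hSinj
    apply nondeg
    intro x
    obtain ⟨y, rfl⟩ := hSsurj x
    rw [← nak, ← antipode_mul_antidistrib, hg, ← mul_assoc, hLl, h0]
    simp
  obtain ⟨h, hh1, hhh⟩ := exists_sqrt h2' hN (g := (counit (R := k) g)⁻¹ • g) (by simp [hg0])
  obtain ⟨v, rfl⟩ := isUnit_of_counit hN hh1
  have hv1 : counit (R := k) (↑v⁻¹ : H) = 1 := by
    have := congr(counit (R := k) $(v.mul_inv))
    rw [Bialgebra.counit_mul, hh1, one_mul] at this
    simpa using this
  let σ : Module.End k H := antipode k ∘ₗ antipode k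
  let c : Module.End k H := LinearMap.mulLeft k (v : H) ∘ₗ LinearMap.mulRight k (↑v⁻¹ : H)
  have hσ : IsNilpotent (σ - 1) := nilp_of_fil hN _ fun n x hx => sq_sub_mem n x hx
  have hc : IsNilpotent (c - 1) := by
    refine nilp_of_fil hN _ fun n x hx => ?_
    have : (c - 1) x = ((v : H) - 1) * x * (↑v⁻¹ : H) + x * ((↑v⁻¹ : H) - 1) := by
      simp only [c, LinearMap.sub_apply, LinearMap.comp_apply, LinearMap.mulLeft_apply,
        LinearMap.mulRight_apply, Module.End.one_apply]
      noncomm_ring
    rw [this]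
    exact add_mem (fil_mul_mem (aug_mul_mem hx (by simp [hh1])) _)
      (mul_mem_fil_succ hx (by simp [hv1]))
  have hsq : σ * σ = c * c := by
    ext b
    have e1 : antipode k (antipode k (antipode k (antipode k b))) * ((v : H) * v) =
        ((v : H) * v) * b := by
      rw [hhh, mul_smul_comm, hS4, smul_mul_assoc]
    simp only [σ, c, Module.End.mul_apply, LinearMap.comp_apply, LinearMap.mulLeft_apply,
      LinearMap.mulRight_apply]
    calc antipode k (antipode k (antipode k (antipode k b)))
        = antipode k (antipode k (antipode k (antipode k b))) * ((v : H) * v) * ↑v⁻¹ * ↑v⁻¹ := by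
          simp [mul_assoc]
      _ = _ := by rw [e1]; simp [mul_assoc]
  have hσc : σ = c := eq_of_sq_eq h2' hσ hc hsq
  have hconj : ∀ a : H, antipode k (antipode k a) * v = v * a := by
    intro a
    have := LinearMap.congr_fun hσc a
    simp only [σ, c, LinearMap.comp_apply, LinearMap.mulLeft_apply,
      LinearMap.mulRight_apply] at this
    rw [this]
    simp [mul_assoc]
  have hsymm : ∀ a b : H, lam (v * (a * b)) = lam (v * (b * a)) := by
    intro a b
    rw [← mul_assoc, nak, ← mul_assoc, hconj, mul_assoc]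
  refine ⟨lam ∘ₗ LinearMap.mulLeft k (v : H), hsymm, fun I hI => ?_⟩
  refine eq_bot_iff.2 fun x hx => ?_
  have h0 : (v : H) * x = 0 := by
    apply nondeg
    intro y
    rw [mul_assoc, hsymm]
    exact hI _ (I.mul_mem_left y hx)
  simpa using h0

end Pool.Agent.Results.MP_af7f8e_al.CharNeTwo
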